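import Mathlib
import Pool.Agent.H773.IE.Final

/-!
# Skew products over interval exchange transformations with values in `SL(d,ℝ)`

For all `d ≥ 2`, `n ≥ 2`, every irreducible permutation of `n` letters, Lebesgue almost every
length vector `λ` of the simplex and Haar almost every `(g₁, …, gₙ) ∈ SL(d,ℝ)ⁿ` the skew product
`(x, hΓ) ↦ (T x, φ(x) hΓ)` on `[0,1) × SL(d,ℝ)/SL(d,ℤ)` is ergodic with respect to the product of
Lebesgue measure and the invariant probability measure, where `T` is the interval exchange
transformation of `λ` and the permutation and `φ = g_j` on the `j`-th exchanged interval.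
-/

set_option autoImplicit false

open MeasureTheory Set Filter Topology

namespace Pool.Agent.Results.MP_fb74c1_an.ErgodicSkewProducts

section IET

variable {n : ℕ}

/-- The left endpoint of the `j`-th exchanged interval. -/
noncomputable def left (lam : Fin n → ℝ) (j : Fin n) : ℝ :=
  ∑ i ∈ Finset.univ.filter (fun i => i < j), lam i

/-- The left endpoint of the image of the `j`-th interval, which comes at the place `σ j`. -/
noncomputable def left' (lam : Fin n → ℝ) (σ : Equiv.Perm (Fin n)) (j : Fin n) : ℝ :=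
  ∑ i ∈ Finset.univ.filter (fun i => σ i < σ j), lam i

/-- The `j`-th exchanged interval `[left, left + lam j)`. -/
noncomputable def piece (lam : Fin n → ℝ) (j : Fin n) : Set ℝ :=
  Ico (left lam j) (left lam j + lam j)

/-- The interval exchange transformation of `[0,1)` (extended by the identity outside of
`[0,1)`): the `j`-th interval is translated from `left lam j` to `left' lam σ j`. -/
noncomputable def iet (lam : Fin n → ℝ) (σ : Equiv.Perm (Fin n)) (x : ℝ) : ℝ :=
  x + ∑ j, (piece lam j).indicator (fun _ => left' lam σ j - left lam j) x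

/-- Lebesgue measure on `[0,1)`, as a measure on `ℝ`. -/
noncomputable def leb : Measure ℝ := volume.restrict (Ico (0 : ℝ) 1)

/-- Irreducible permutations: for `0 < k < n` the set of the first `k` letters is not
invariant. -/
def Irr (σ : Equiv.Perm (Fin n)) : Prop :=
  ∀ k : ℕ, 0 < k → k < n → ∃ i : Fin n, (i : ℕ) < k ∧ k ≤ (σ i : ℕ)

variable {G : Type} [Group G]

open Classical in
/-- The simple function with the value `g j` on the `j`-th exchanged interval (and the value `1`
outside of `[0,1)`). -/
noncomputable def stepFn (lam : Fin n → ℝ) (g : Fin n → G) (x : ℝ) : G :=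
  if h : ∃ j, x ∈ piece lam j then g h.choose else 1

/-- The skew product `(x, y) ↦ (T x, φ(x) • y)` over the interval exchange transformation `T`. -/
noncomputable def skew {X : Type} [MulAction G X] (lam : Fin n → ℝ) (σ : Equiv.Perm (Fin n))
    (g : Fin n → G) (p : ℝ × X) : ℝ × X :=
  (iet lam σ p.1, stepFn lam g p.1 • p.2)

end IET

/-- The group `SL(d,ℝ)` (with the topology of matrices). -/
abbrev SLR (d : ℕ) := Matrix.SpecialLinearGroup (Fin d) ℝ

/-- The subgroup `SL(d,ℤ)` of `SL(d,ℝ)`. -/
def SLZ (d : ℕ) : Subgroup (SLR d) :=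
  (Matrix.SpecialLinearGroup.map (n := Fin d) (Int.castRingHom ℝ)).range

/-- The length vector `(x₁, …, x_m, 1 - x₁ - … - x_m)` of the simplex, `n = m + 1`. -/
noncomputable def lengths {m : ℕ} (x : Fin m → ℝ) : Fin (m + 1) → ℝ :=
  Fin.snoc (α := fun _ => ℝ) x (1 - ∑ i, x i)

/-- **Ergodicity of typical `SL(d,ℝ)` skew products over typical interval exchange
transformations.** Let `d ≥ 2`, `n = m + 1 ≥ 2`, let `σ` be an irreducible permutation of `n`
letters, let `μ` be a Haar measure of `SL(d,ℝ)` and let `ν` be the `SL(d,ℝ)`-invariant Borel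
probability measure on `SL(d,ℝ)/SL(d,ℤ)`. Then for Lebesgue almost every length vector in the open
simplex and almost every `g ∈ SL(d,ℝ)ⁿ` the skew product is ergodic for the product of Lebesgue
measure on `[0,1)` and `ν`. -/
theorem result (d : ℕ) (hd : 2 ≤ d) (m : ℕ) (hm : 1 ≤ m) (σ : Equiv.Perm (Fin (m + 1)))
    (hσ : Irr σ) [MeasurableSpace (SLR d)] [BorelSpace (SLR d)] (μ : Measure (SLR d))
    [μ.IsHaarMeasure] [mQ : MeasurableSpace (SLR d ⧸ SLZ d)] [bQ : BorelSpace (SLR d ⧸ SLZ d)]
    (ν : Measure (SLR d ⧸ SLZ d)) [pQ : IsProbabilityMeasure ν]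
    [iQ : SMulInvariantMeasure (SLR d) (SLR d ⧸ SLZ d) ν] :
    ∀ᵐ x ∂(volume : Measure (Fin m → ℝ)), (∀ i, 0 < x i) → ∑ i, x i < 1 →
      ∀ᵐ g ∂(Measure.pi fun _ : Fin (m + 1) => μ),
        Ergodic (skew (lengths x) σ g) (leb.prod ν) :=
  @Pool.Agent.H773.IE.p_final d hd m hm σ hσ _ _ μ _ mQ bQ ν pQ iQ

end Pool.Agent.Results.MP_fb74c1_an.ErgodicSkewProducts
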